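import Pool.Agent.helper95.RF.SpecC3

/-! Project RF stage 2 (MP_16912e_nt), row GSU: sizes for the upper bounds. -/

set_option autoImplicit false

namespace Pool.Agent.RF

open Finset NumberField Pool.Agent.helper3.FT

theorem GSU_err (B T Q R a : ℝ) (hB : 0 ≤ B) (hT : 0 < T) (hQ : 0 ≤ Q) (hR : 0 ≤ R) (ha : 0 < a)
    (h1 : a ^ 4 / 36 ≤ T) (h2 : T ≤ a ^ 4) :
    B / T * (T * Q + R ^ (3 / 2 : ℝ) * (T ^ (5 / 4 : ℝ) + Q * T ^ (1 / 4 : ℝ))) ≤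
      B * Q + B * R ^ (3 / 2 : ℝ) * a + B * R ^ (3 / 2 : ℝ) * Q * (36 / a ^ 3) := by
  obtain ⟨t, ht⟩ : ∃ t : ℝ, t = T ^ (1 / 4 : ℝ) := ⟨_, rfl⟩
  have ht0 : 0 < t := by rw [ht]; positivity
  have ht4 : t ^ 4 = T := by
    rw [ht, ← Real.rpow_natCast, ← Real.rpow_mul hT.le]
    norm_num
  have ht5 : T ^ (5 / 4 : ℝ) = T * t := by
    rw [ht, ← Real.rpow_one_add' hT.le (by norm_num)]
    norm_num
  have hta : t ≤ a := by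
    have h3 : t ^ 4 ≤ a ^ 4 := by rw [ht4]; exact h2
    exact le_of_pow_le_pow_left₀ (by norm_num) ha.le h3
  obtain ⟨r3, hr3⟩ : ∃ r3 : ℝ, r3 = R ^ (3 / 2 : ℝ) := ⟨_, rfl⟩
  have hr30 : 0 ≤ r3 := by rw [hr3]; positivity
  rw [ht5, ← ht, ← hr3]
  have e1 : B / T * (T * Q + r3 * (T * t + Q * t)) = B * Q + B * r3 * t + B * r3 * Q * (t / T) := by
    field_simp
    ring
  rw [e1]
  have h4 : t / T ≤ 36 / a ^ 3 := by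
    rw [div_le_div_iff₀ hT (by positivity)]
    have h5 : a ^ 4 ≤ 36 * T := by linarith
    calc t * a ^ 3 ≤ a * a ^ 3 := mul_le_mul_of_nonneg_right hta (by positivity)
      _ = a ^ 4 := by ring
      _ ≤ 36 * T := h5
  have h6 : 0 ≤ B * r3 := by positivity
  have h7 : 0 ≤ B * r3 * Q := by positivity
  have h8 := mul_le_mul_of_nonneg_left hta h6
  have h9 := mul_le_mul_of_nonneg_left h4 h7
  linarith

theorem GSU_err2 (u v w ω f K B T Q R : ℝ) (hu : 0 < u) (hv : 0 < v) (hω : 1 ≤ ω) (hw : ω ≤ w) (hf : 1 ≤ f)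
    (hK : 0 ≤ K) (hB : 0 ≤ B) (hB1 : B ≤ v ^ 2 * u ^ 4 / w ^ 2) (hQ : 0 ≤ Q)
    (hQ1 : Q ≤ u ^ 4 * ω ^ 4 / w ^ 4) (hR : 0 ≤ R) (hR1 : R ≤ K * (w ^ 2 * u / v) ^ 2)
    (h1 : (f * ω * u / v) ^ 4 / 36 ≤ T) (h2 : T ≤ (f * ω * u / v) ^ 4) :
    B / T * (T * Q + R ^ (3 / 2 : ℝ) * (T ^ (5 / 4 : ℝ) + Q * T ^ (1 / 4 : ℝ))) ≤
      (1 + 37 * K ^ (3 / 2 : ℝ) * f) * (w * (1 + w ^ 4 / v ^ 4) * (v ^ 2 * u ^ 8)) := by
  have hω0 : 0 < ω := by linarith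
  have hw0 : 0 < w := by linarith
  have hw1 : 1 ≤ w := by linarith
  have hf0 : 0 < f := by linarith
  have ha : 0 < f * ω * u / v := by positivity
  have hT : 0 < T := lt_of_lt_of_le (by positivity) h1
  have hR3 : R ^ (3 / 2 : ℝ) ≤ K ^ (3 / 2 : ℝ) * (w ^ 2 * u / v) ^ 3 := by
    have h3 : R ^ (3 / 2 : ℝ) ≤ (K * (w ^ 2 * u / v) ^ 2) ^ (3 / 2 : ℝ) :=
      Real.rpow_le_rpow hR hR1 (by norm_num)
    have h4 : ((w ^ 2 * u / v) ^ 2) ^ (3 / 2 : ℝ) = (w ^ 2 * u / v) ^ 3 := by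
      rw [← Real.rpow_natCast, ← Real.rpow_mul (by positivity), ← Real.rpow_natCast]
      norm_num
    rw [Real.mul_rpow hK (by positivity), h4] at h3
    exact h3
  refine (GSU_err B T Q R _ hB hT hQ hR ha h1 h2).trans ?_
  obtain ⟨r3, hr3⟩ : ∃ r3 : ℝ, r3 = R ^ (3 / 2 : ℝ) := ⟨_, rfl⟩
  obtain ⟨K3, hK3⟩ : ∃ K3 : ℝ, K3 = K ^ (3 / 2 : ℝ) := ⟨_, rfl⟩
  have hr30 : 0 ≤ r3 := by rw [hr3]; positivity
  have hK30 : 0 ≤ K3 := by rw [hK3]; positivity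
  rw [← hr3, ← hK3] at hR3
  rw [← hr3, ← hK3]
  have a1 : B * Q ≤ w * (v ^ 2 * u ^ 8) := by
    calc B * Q ≤ v ^ 2 * u ^ 4 / w ^ 2 * (u ^ 4 * ω ^ 4 / w ^ 4) := mul_le_mul hB1 hQ1 hQ (by positivity)
      _ ≤ v ^ 2 * u ^ 4 / 1 * (u ^ 4 * w ^ 4 / w ^ 4) := by
          gcongr
          exact one_le_pow₀ hw1
      _ = 1 * (v ^ 2 * u ^ 8) := by field_simp
      _ ≤ w * (v ^ 2 * u ^ 8) := mul_le_mul_of_nonneg_right hw1 (by positivity)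
  have a2 : B * r3 ≤ v ^ 2 * u ^ 4 / w ^ 2 * (K3 * (w ^ 2 * u / v) ^ 3) :=
    mul_le_mul hB1 hR3 hr30 (by positivity)
  have a3 : B * r3 * (f * ω * u / v) ≤ K3 * f * (w * (w ^ 4 / v ^ 4) * (v ^ 2 * u ^ 8)) := by
    calc B * r3 * (f * ω * u / v) ≤ v ^ 2 * u ^ 4 / w ^ 2 * (K3 * (w ^ 2 * u / v) ^ 3) * (f * w * u / v) := by
          apply mul_le_mul a2 _ ha.le (by positivity)
          gcongr
      _ = K3 * f * (w * (w ^ 4 / v ^ 4) * (v ^ 2 * u ^ 8)) := by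
          field_simp
  have a4 : B * r3 * Q * (36 / (f * ω * u / v) ^ 3) ≤ 36 * K3 * (w * (v ^ 2 * u ^ 8)) := by
    calc B * r3 * Q * (36 / (f * ω * u / v) ^ 3) ≤
        v ^ 2 * u ^ 4 / w ^ 2 * (K3 * (w ^ 2 * u / v) ^ 3) * (u ^ 4 * ω ^ 4 / w ^ 4) * (36 / (1 * ω * u / v) ^ 3) := by
          apply mul_le_mul (mul_le_mul a2 hQ1 hQ (by positivity)) _ (by positivity) (by positivity)
          gcongr
      _ = 36 * K3 * (ω * (v ^ 2 * u ^ 8)) := by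
          field_simp
      _ ≤ 36 * K3 * (w * (v ^ 2 * u ^ 8)) := by gcongr
  have b1 : 0 ≤ w * (v ^ 2 * u ^ 8) := by positivity
  have b2 : 0 ≤ w * (w ^ 4 / v ^ 4) * (v ^ 2 * u ^ 8) := by positivity
  have e1 : w * (1 + w ^ 4 / v ^ 4) * (v ^ 2 * u ^ 8) =
      w * (v ^ 2 * u ^ 8) + w * (w ^ 4 / v ^ 4) * (v ^ 2 * u ^ 8) := by ring
  rw [e1]
  obtain ⟨m1, hm1⟩ : ∃ m1 : ℝ, m1 = w * (v ^ 2 * u ^ 8) := ⟨_, rfl⟩
  obtain ⟨m2, hm2⟩ : ∃ m2 : ℝ, m2 = w * (w ^ 4 / v ^ 4) * (v ^ 2 * u ^ 8) := ⟨_, rfl⟩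
  rw [← hm1] at a1 a4 b1
  rw [← hm2] at a3 b2
  rw [← hm1, ← hm2]
  have c1 : 0 ≤ K3 * m1 * (f - 1) := mul_nonneg (mul_nonneg hK30 b1) (by linarith)
  have c2 : 0 ≤ K3 * f * m1 := by positivity
  have c3 : 0 ≤ K3 * f * m2 := by positivity
  nlinarith

theorem GSU_q3 (Q u : ℝ) (hu : 0 < u) (h1 : u ^ 4 / 4 ≤ Q) (h2 : Q ≤ u ^ 4) :
    u ^ 6 / 8 ≤ Q ^ (3 / 2 : ℝ) ∧ Q ^ (3 / 2 : ℝ) ≤ u ^ 6 ∧ (Q ^ (3 / 2 : ℝ)) ^ 2 = Q ^ 3 := by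
  have hQ : 0 < Q := lt_of_lt_of_le (by positivity) h1
  have e1 : (u ^ 4) ^ (3 / 2 : ℝ) = u ^ 6 := by
    rw [← Real.rpow_natCast, ← Real.rpow_mul hu.le, ← Real.rpow_natCast]
    norm_num
  have e2 : (u ^ 4 / 4) ^ (3 / 2 : ℝ) = u ^ 6 / 8 := by
    have h3 : u ^ 4 / 4 = (u ^ 2 / 2) ^ 2 := by ring
    rw [h3, ← Real.rpow_natCast, ← Real.rpow_mul (by positivity)]
    have h4 : ((2 : ℕ) : ℝ) * (3 / 2) = ((3 : ℕ) : ℝ) := by norm_num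
    rw [h4, Real.rpow_natCast]
    ring
  refine ⟨?_, ?_, ?_⟩
  · rw [← e2]
    exact Real.rpow_le_rpow (by positivity) h1 (by norm_num)
  · rw [← e1]
    exact Real.rpow_le_rpow hQ.le h2 (by norm_num)
  · rw [← Real.rpow_natCast, ← Real.rpow_mul hQ.le, ← Real.rpow_natCast]
    norm_num

theorem GSU_ceil (z : ℝ) (hz : 3 ≤ z) : z + 1 ≤ ((⌈z⌉₊ + 2 : ℕ) : ℝ) ∧ ((⌈z⌉₊ + 2 : ℕ) : ℝ) ≤ 2 * z := by
  have h1 := Nat.le_ceil z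
  have h2 := Nat.ceil_lt_add_one (show 0 ≤ z by linarith)
  push_cast
  constructor <;> linarith

theorem GSU_floor (x : ℝ) (hx : 1 ≤ x) : 1 ≤ ⌊x⌋₊ ∧ x / 2 ≤ (⌊x⌋₊ : ℝ) ∧ (⌊x⌋₊ : ℝ) ≤ x := by
  have h1 : 1 ≤ ⌊x⌋₊ := by
    rw [Nat.one_le_floor_iff]
    exact hx
  have h1' : (1 : ℝ) ≤ (⌊x⌋₊ : ℝ) := by exact_mod_cast h1
  have h2 := Nat.lt_floor_add_one x
  have h3 := Nat.floor_le (show 0 ≤ x by linarith)
  exact ⟨h1, by linarith, h3⟩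

/-- the three cases: `ω = w` for (I), (II), `ω = 1` for (III); `wb = w ^ 2` for (I), (III), `w ^ 4` for (II) -/
theorem GSU_core (P E u v w ω wb f s S : ℝ) (hP : 1 ≤ P) (hEP : P ≤ E) (hu : 0 < u) (hv : 0 < v) (hω : 1 ≤ ω)
    (hw : ω ≤ w) (hwb : w ^ 2 ≤ wb) (hf : f ^ 4 = E) (hf1 : 1 ≤ f)
    (hs0 : 0 < s) (hsS : s ^ 2 = S) (hs1 : 2 * v ^ 2 * u ^ 4 ≤ s) (hs2 : s ≤ 3 * v ^ 2 * u ^ 4)
    (B T : ℝ) (hB1 : 7 * s / (100 * (E * wb)) ≤ B) (hB2 : B ≤ 2 * (7 * s / (100 * (E * wb))))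
    (hT1 : ω ^ 4 * E * u ^ 12 / (2 * S) / 2 ≤ T) (hT2 : T ≤ ω ^ 4 * E * u ^ 12 / (2 * S)) :
    B ≤ v ^ 2 * u ^ 4 / (E * wb) ∧ v ^ 2 * u ^ 4 / (8 * (E * wb)) ≤ B ∧ 0 < B ∧ B ≤ v ^ 2 * u ^ 4 / w ^ 2 ∧
      (f * ω * u / v) ^ 4 / 36 ≤ T ∧ T ≤ (f * ω * u / v) ^ 4 ∧ 0 < T ∧
      B ^ 2 / T ≤ 100 * (v ^ 8 * u ^ 4) / (E ^ 3 * w ^ 4 * ω ^ 4) := by
  have hE : 1 ≤ E := hP.trans hEP
  have hE0 : 0 < E := by linarith
  have hw0 : 0 < w := by linarith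
  have hω0 : 0 < ω := by linarith
  have hwb0 : 0 < wb := lt_of_lt_of_le (by positivity) hwb
  have hS0 : 0 < S := by rw [← hsS]; positivity
  have hS1 : 4 * (v ^ 4 * u ^ 8) ≤ S := by
    rw [← hsS]
    calc 4 * (v ^ 4 * u ^ 8) = (2 * v ^ 2 * u ^ 4) ^ 2 := by ring
      _ ≤ s ^ 2 := pow_le_pow_left₀ (by positivity) hs1 2
  have hS2 : S ≤ 9 * (v ^ 4 * u ^ 8) := by
    rw [← hsS]
    calc s ^ 2 ≤ (3 * v ^ 2 * u ^ 4) ^ 2 := pow_le_pow_left₀ hs0.le hs2 2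
      _ = 9 * (v ^ 4 * u ^ 8) := by ring
  have b1 : B ≤ v ^ 2 * u ^ 4 / (E * wb) := by
    refine hB2.trans ?_
    have e1 : 2 * (7 * s / (100 * (E * wb))) = (14 / 100 * s) / (E * wb) := by
      field_simp
      ring
    rw [e1]
    apply div_le_div_of_nonneg_right _ (by positivity)
    have : 0 < v ^ 2 * u ^ 4 := by positivity
    linarith
  have b2 : v ^ 2 * u ^ 4 / (8 * (E * wb)) ≤ B := by
    refine le_trans ?_ hB1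
    have e1 : 7 * s / (100 * (E * wb)) = (56 / 100 * s) / (8 * (E * wb)) := by
      field_simp
      ring
    rw [e1]
    apply div_le_div_of_nonneg_right _ (by positivity)
    have : 0 < v ^ 2 * u ^ 4 := by positivity
    linarith
  have b3 : 0 < B := lt_of_lt_of_le (by positivity) b2
  have b4 : B ≤ v ^ 2 * u ^ 4 / w ^ 2 := by
    refine b1.trans ?_
    apply div_le_div_of_nonneg_left (by positivity) (by positivity)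
    nlinarith
  have t1 : (f * ω * u / v) ^ 4 / 36 ≤ T := by
    refine le_trans ?_ hT1
    have e1 : (f * ω * u / v) ^ 4 / 36 = ω ^ 4 * E * u ^ 12 / (36 * (v ^ 4 * u ^ 8)) := by
      rw [div_pow, mul_pow, mul_pow, hf]
      field_simp
    have e2 : ω ^ 4 * E * u ^ 12 / (2 * S) / 2 = ω ^ 4 * E * u ^ 12 / (4 * S) := by
      field_simp
      ring
    rw [e1, e2]
    apply div_le_div_of_nonneg_left (by positivity) (by positivity)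
    linarith
  have t2 : T ≤ (f * ω * u / v) ^ 4 := by
    refine hT2.trans ?_
    have e1 : (f * ω * u / v) ^ 4 = ω ^ 4 * E * u ^ 12 / (v ^ 4 * u ^ 8) := by
      rw [div_pow, mul_pow, mul_pow, hf]
      field_simp
    rw [e1]
    apply div_le_div_of_nonneg_left (by positivity) (by positivity)
    have : 0 < v ^ 4 * u ^ 8 := by positivity
    linarith
  have t3 : 0 < T := lt_of_lt_of_le (by positivity) t1
  refine ⟨b1, b2, b3, b4, t1, t2, t3, ?_⟩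
  have c1 : B ^ 2 ≤ (v ^ 2 * u ^ 4 / (E * w ^ 2)) ^ 2 := by
    apply pow_le_pow_left₀ b3.le
    refine b1.trans ?_
    apply div_le_div_of_nonneg_left (by positivity) (by positivity)
    exact mul_le_mul_of_nonneg_left hwb hE0.le
  calc B ^ 2 / T ≤ (v ^ 2 * u ^ 4 / (E * w ^ 2)) ^ 2 / ((f * ω * u / v) ^ 4 / 36) := by
        apply div_le_div₀ (by positivity) c1 (by positivity) t1
    _ = 36 * (v ^ 8 * u ^ 4) / (E ^ 3 * w ^ 4 * ω ^ 4) := by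
        rw [div_pow (f * ω * u), mul_pow, mul_pow, hf]
        field_simp
    _ ≤ 100 * (v ^ 8 * u ^ 4) / (E ^ 3 * w ^ 4 * ω ^ 4) := by
        gcongr
        norm_num

theorem GSU_R (E u v w ω wb f B T q3 a1 a2 : ℝ) (hE : 0 < E) (hu : 0 < u) (hv : 0 < v) (hω : 0 < ω)
    (hw : 0 < w) (hwb : 0 < wb) (hf : f ^ 4 = E) (ha1 : 0 ≤ a1) (ha2 : 0 ≤ a2) (h1 : a1 * ω ^ 4 ≤ 2 * w ^ 4 * wb)
    (h2 : a2 * wb ≤ 2 * w ^ 4) (hB1 : B ≤ v ^ 2 * u ^ 4 / (E * wb)) (hB2 : v ^ 2 * u ^ 4 / (8 * (E * wb)) ≤ B)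
    (hB : 0 < B) (hT : T ≤ (f * ω * u / v) ^ 4) (hT0 : 0 < T) (hq1 : u ^ 6 / 8 ≤ q3) (hq2 : q3 ≤ u ^ 6) :
    0 ≤ E * T * a1 * B / q3 + a2 * q3 / B ∧
      E * T * a1 * B / q3 + a2 * q3 / B ≤ 32 * E * (w ^ 2 * u / v) ^ 2 := by
  have hq0 : 0 < q3 := lt_of_lt_of_le (by positivity) hq1
  refine ⟨by positivity, ?_⟩
  have c1 : E * T * a1 * B / q3 ≤ 16 * E * (w ^ 2 * u / v) ^ 2 := by
    calc E * T * a1 * B / q3 ≤ E * (f * ω * u / v) ^ 4 * a1 * (v ^ 2 * u ^ 4 / (E * wb)) / (u ^ 6 / 8) := by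
          apply div_le_div₀ (by positivity) _ (by positivity) hq1
          gcongr
      _ = 8 * E * (a1 * ω ^ 4 / wb) * (u / v) ^ 2 := by
          rw [div_pow (f * ω * u), mul_pow, mul_pow, hf]
          field_simp
      _ ≤ 8 * E * (2 * w ^ 4) * (u / v) ^ 2 := by
          have h3 : a1 * ω ^ 4 / wb ≤ 2 * w ^ 4 := by
            rw [div_le_iff₀ hwb]
            exact h1
          gcongr
      _ = 16 * E * (w ^ 2 * u / v) ^ 2 := by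
          field_simp
          ring
  have c2 : a2 * q3 / B ≤ 16 * E * (w ^ 2 * u / v) ^ 2 := by
    calc a2 * q3 / B ≤ a2 * u ^ 6 / (v ^ 2 * u ^ 4 / (8 * (E * wb))) := by
          apply div_le_div₀ (by positivity) _ (by positivity) hB2
          gcongr
      _ = 8 * E * (a2 * wb) * (u / v) ^ 2 := by
          field_simp
      _ ≤ 8 * E * (2 * w ^ 4) * (u / v) ^ 2 := by gcongr
      _ = 16 * E * (w ^ 2 * u / v) ^ 2 := by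
          field_simp
          ring
  linarith

theorem GSU_case (P E u v w ω wb f s S : ℝ) (hP : 1 ≤ P) (hEP : P ≤ E) (hu : 0 < u) (hv : 0 < v) (hω : 1 ≤ ω)
    (hw : ω ≤ w) (hwb : w ^ 2 ≤ wb) (hf : f ^ 4 = E) (hf1 : 1 ≤ f)
    (hs0 : 0 < s) (hsS : s ^ 2 = S) (hs1 : 2 * v ^ 2 * u ^ 4 ≤ s) (hs2 : s ≤ 3 * v ^ 2 * u ^ 4)
    (hz : 3 ≤ 7 * s / (100 * (E * wb))) (hx : 1 ≤ ω ^ 4 * E * u ^ 12 / (2 * S)) (a1 a2 Q Q' : ℝ)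
    (ha1 : 0 ≤ a1) (ha2 : 0 ≤ a2) (h1 : a1 * ω ^ 4 ≤ 2 * w ^ 4 * wb) (h2 : a2 * wb ≤ 2 * w ^ 4)
    (hQ1 : u ^ 4 / 4 ≤ Q) (hQ2 : Q ≤ u ^ 4) (hQ3 : 0 ≤ Q') (hQ4 : Q' ≤ u ^ 4 * ω ^ 4 / w ^ 4) :
    ∃ B T : ℕ, 1 ≤ B ∧ 1 ≤ T ∧ 7 * s / (100 * (E * wb)) + 1 ≤ (B : ℝ) ∧ (T : ℝ) ≤ ω ^ 4 * E * u ^ 12 / (2 * S) ∧
      (B : ℝ) ^ 2 / T ≤ 100 * (v ^ 8 * u ^ 4) / (E ^ 3 * w ^ 4 * ω ^ 4) ∧
      ∀ R : ℝ, R = E * T * a1 * B / Q ^ (3 / 2 : ℝ) + a2 * Q ^ (3 / 2 : ℝ) / B →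
        (B : ℝ) / T * (T * Q' + R ^ (3 / 2 : ℝ) * ((T : ℝ) ^ (5 / 4 : ℝ) + Q' * (T : ℝ) ^ (1 / 4 : ℝ))) ≤
          (1 + 37 * (32 * E) ^ (3 / 2 : ℝ) * f) * (w * (1 + w ^ 4 / v ^ 4) * (v ^ 2 * u ^ 8)) := by
  have hE : 1 ≤ E := hP.trans hEP
  have hE0 : 0 < E := by linarith
  have hw0 : 0 < w := by linarith
  have hω0 : 0 < ω := by linarith
  have hwb0 : 0 < wb := lt_of_lt_of_le (by positivity) hwb
  obtain ⟨b1, b2⟩ := GSU_ceil _ hz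
  obtain ⟨t1, t2, t3⟩ := GSU_floor _ hx
  obtain ⟨q1, q2, -⟩ := GSU_q3 Q u hu hQ1 hQ2
  obtain ⟨c1, c2, c3, c4, c5, c6, c7, c8⟩ := GSU_core P E u v w ω wb f s S hP hEP hu hv hω hw hwb hf hf1 hs0 hsS
    hs1 hs2 _ _ (by linarith) b2 t2 t3
  refine ⟨⌈7 * s / (100 * (E * wb))⌉₊ + 2, ⌊ω ^ 4 * E * u ^ 12 / (2 * S)⌋₊, by omega, t1, b1, t3, c8, ?_⟩
  intro R hR
  obtain ⟨r1, r2⟩ := GSU_R E u v w ω wb f _ _ (Q ^ (3 / 2 : ℝ)) a1 a2 hE0 hu hv hω0 hw0 hwb0 hf ha1 ha2 h1 h2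
    c1 c2 c3 c6 c7 q1 q2
  rw [← hR] at r1 r2
  exact GSU_err2 u v w ω f (32 * E) _ _ Q' R hu hv hω hw hf1 (by positivity) c3.le c4 hQ3 hQ4 r1 r2 c5 c6

theorem GSU_root (x : ℝ) (n : ℕ) (hn : n ≠ 0) (hx : 1 ≤ x) : 1 ≤ x ^ (1 / (n : ℝ)) ∧ (x ^ (1 / (n : ℝ))) ^ n = x := by
  refine ⟨Real.one_le_rpow hx (by positivity), ?_⟩
  rw [one_div]
  exact Real.rpow_inv_natCast_pow (by linarith) hn

theorem GSU_S (N X u v : ℝ) (hu : 0 < u) (hv : 0 < v) (hN : N = v ^ 12 * u ^ 8) (hX : X ^ 2 = u ^ 4) :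
    0 < SZ N X ∧ 0 < √(SZ N X) ∧ √(SZ N X) ^ 2 = SZ N X ∧ 2 * v ^ 2 * u ^ 4 ≤ √(SZ N X) ∧ √(SZ N X) ≤ 3 * v ^ 2 * u ^ 4 ∧
      SZ N X ≤ 9 * (v ^ 4 * u ^ 8) := by
  have e1 : 500 * N * X ^ 8 = 500 * (v ^ 4 * u ^ 8) ^ 3 := by
    have : X ^ 8 = (X ^ 2) ^ 4 := by ring
    rw [this, hX, hN]
    ring
  have h0 : 0 < 500 * N * X ^ 8 := by rw [e1]; positivity
  have hS0 : 0 < SZ N X := by
    unfold SZ
    positivity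
  have h3 : SZ N X ^ 3 = 500 * (v ^ 4 * u ^ 8) ^ 3 := by
    unfold SZ
    rw [← Real.rpow_natCast, ← Real.rpow_mul h0.le, ← e1]
    norm_num
  have hlo : 4 * (v ^ 4 * u ^ 8) ≤ SZ N X := by
    apply le_of_pow_le_pow_left₀ (n := 3) (by norm_num) hS0.le
    rw [h3, mul_pow]
    have : 0 ≤ (v ^ 4 * u ^ 8) ^ 3 := by positivity
    linarith
  have hhi : SZ N X ≤ 9 * (v ^ 4 * u ^ 8) := by
    apply le_of_pow_le_pow_left₀ (n := 3) (by norm_num) (by positivity)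
    rw [h3, mul_pow]
    have : 0 ≤ (v ^ 4 * u ^ 8) ^ 3 := by positivity
    linarith
  refine ⟨hS0, Real.sqrt_pos.mpr hS0, Real.sq_sqrt hS0.le, ?_, ?_, hhi⟩
  · apply Real.le_sqrt_of_sq_le
    calc (2 * v ^ 2 * u ^ 4) ^ 2 = 4 * (v ^ 4 * u ^ 8) := by ring
      _ ≤ SZ N X := hlo
  · rw [Real.sqrt_le_left (by positivity)]
    calc SZ N X ≤ 9 * (v ^ 4 * u ^ 8) := hhi
      _ = (3 * v ^ 2 * u ^ 4) ^ 2 := by ring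

theorem GSU_c3 (E wb s B : ℝ) (hE : 0 < E) (hwb : 0 < wb) (h : 7 * s / (100 * (E * wb)) + 1 ≤ B) :
    7 * s / (100 * wb) + E ≤ E * B := by
  have h1 := mul_le_mul_of_nonneg_left h hE.le
  have e1 : E * (7 * s / (100 * (E * wb)) + 1) = 7 * s / (100 * wb) + E := by
    field_simp
  rw [e1] at h1
  exact h1

theorem GSU_c4 (E ω4 u S T : ℝ) (hω : 0 < ω4) (hS : 0 < S) (h : T ≤ ω4 * E * u ^ 12 / (2 * S)) :
    4 * T * (S / (2 * ω4)) ≤ E * (u ^ 4) ^ 3 := by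
  have h1 := mul_le_mul_of_nonneg_right h (show 0 ≤ 4 * (S / (2 * ω4)) by positivity)
  have e1 : ω4 * E * u ^ 12 / (2 * S) * (4 * (S / (2 * ω4))) = E * (u ^ 4) ^ 3 := by
    field_simp
    ring
  rw [e1] at h1
  linarith

theorem GSU_c6 (P E u v w ω X : ℝ) (hP : 1 ≤ P) (hEP : P ≤ E) (hu : 0 < u) (hv : 0 < v) (hw : 0 < w) (hω : 0 < ω)
    (h : X ≤ 100 * (v ^ 8 * u ^ 4) / (E ^ 3 * w ^ 4 * ω ^ 4)) :
    u ^ 4 / (10 * P) ^ 2 * X ≤ v ^ 8 * u ^ 8 / (w ^ 4 * ω ^ 4 * P ^ 5) := by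
  have hP0 : 0 < P := by linarith
  have hE0 : 0 < E := by linarith
  calc u ^ 4 / (10 * P) ^ 2 * X ≤ u ^ 4 / (10 * P) ^ 2 * (100 * (v ^ 8 * u ^ 4) / (E ^ 3 * w ^ 4 * ω ^ 4)) :=
        mul_le_mul_of_nonneg_left h (by positivity)
    _ ≤ u ^ 4 / (10 * P) ^ 2 * (100 * (v ^ 8 * u ^ 4) / (P ^ 3 * w ^ 4 * ω ^ 4)) := by
        gcongr
    _ = v ^ 8 * u ^ 8 / (w ^ 4 * ω ^ 4 * P ^ 5) := by
        field_simp
        ring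

theorem GSU : GSU_stmt := by
  refine ⟨1, le_rfl, ?_⟩
  intro P hP
  obtain ⟨E, hE⟩ : ∃ E : ℝ, E = ((16 * 5 ^ 6 * P : ℕ) : ℝ) := ⟨_, rfl⟩
  have hP' : (1 : ℝ) ≤ P := by exact_mod_cast hP
  have hEP : (P : ℝ) ≤ E := by
    rw [hE]
    push_cast
    linarith
  have hE1 : 1 ≤ E := hP'.trans hEP
  obtain ⟨hf1, hf4⟩ := GSU_root E 4 (by norm_num) hE1
  obtain ⟨f, hf⟩ : ∃ f : ℝ, f = E ^ (1 / ((4 : ℕ) : ℝ)) := ⟨_, rfl⟩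
  rw [← hf] at hf1 hf4
  refine ⟨1 + 37 * (32 * E) ^ (3 / 2 : ℝ) * f, ?_, ?_⟩
  · have : 0 ≤ 37 * (32 * E) ^ (3 / 2 : ℝ) * f := by positivity
    linarith
  intro ρ hρ X₀
  obtain ⟨Y₀, hY₀⟩ : ∃ Y₀ : ℝ, Y₀ = 50 * E * ρ + 36 * ρ + X₀ ^ 2 + 1 := ⟨_, rfl⟩
  have hEρ : 1 ≤ E * ρ := one_le_mul_of_one_le_of_one_le hE1 hρ
  have hY1 : 1 ≤ Y₀ := by
    rw [hY₀]
    nlinarith [sq_nonneg X₀]
  refine ⟨(ρ * Y₀) ^ 2 + 1, ?_⟩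
  intro N X hN hX hXe
  have hρ0 : 0 < ρ := by linarith
  have hN1 : 1 ≤ N := by
    have := sq_nonneg (ρ * Y₀)
    linarith
  have hN0 : 0 ≤ N := by linarith
  have hsq : ρ * Y₀ ≤ √N := by
    apply Real.le_sqrt_of_sq_le
    linarith
  have hy : Y₀ ≤ X ^ 2 := by
    rw [hXe, le_div_iff₀ hρ0]
    linarith
  have hy1 : 1 ≤ X ^ 2 := hY1.trans hy
  have hNy : N = ρ ^ 2 * (X ^ 2) ^ 2 := by
    have h1 : √N = ρ * X ^ 2 := by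
      rw [hXe]
      field_simp
    rw [← Real.sq_sqrt hN0, h1]
    ring
  refine ⟨hN1, ?_, ?_⟩
  · have h1 : X₀ ^ 2 ≤ X ^ 2 := by
      rw [hY₀] at hy
      nlinarith
    exact (le_abs_self X₀).trans (abs_le_of_sq_le_sq h1 hX.le)
  intro l hl hlρ
  obtain ⟨hv1, hv6⟩ := GSU_root ρ 6 (by norm_num) hρ
  obtain ⟨v, hvd⟩ : ∃ v : ℝ, v = ρ ^ (1 / ((6 : ℕ) : ℝ)) := ⟨_, rfl⟩
  rw [← hvd] at hv1 hv6
  obtain ⟨hu1, hu4⟩ := GSU_root (X ^ 2) 4 (by norm_num) hy1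
  obtain ⟨u, hud⟩ : ∃ u : ℝ, u = (X ^ 2) ^ (1 / ((4 : ℕ) : ℝ)) := ⟨_, rfl⟩
  rw [← hud] at hu1 hu4
  have hl1 : (1 : ℝ) ≤ l := by exact_mod_cast hl
  obtain ⟨hw1, hw4⟩ := GSU_root (l : ℝ) 4 (by norm_num) hl1
  obtain ⟨w, hwd⟩ : ∃ w : ℝ, w = (l : ℝ) ^ (1 / ((4 : ℕ) : ℝ)) := ⟨_, rfl⟩
  rw [← hwd] at hw1 hw4
  have hu0 : 0 < u := by linarith
  have hv0 : 0 < v := by linarith
  have hw0 : 0 < w := by linarith
  have hE0 : 0 < E := by linarith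
  have hP0 : (0 : ℝ) < P := by linarith
  have hwl : (l : ℝ) ^ (1 / 4 : ℝ) = w := by
    rw [hwd]
    norm_num
  have hsl : √(l : ℝ) = w ^ 2 := by
    rw [← hw4, show w ^ 4 = (w ^ 2) ^ 2 by ring]
    exact Real.sqrt_sq (by positivity)
  have hN' : N = v ^ 12 * u ^ 8 := by
    rw [hNy, ← hv6, ← hu4]
    ring
  have hρ23 : ρ ^ (-(2 / 3) : ℝ) = (v ^ 4)⁻¹ := by
    rw [← hv6, ← Real.rpow_natCast v 6, ← Real.rpow_mul hv0.le]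
    have e1 : ((6 : ℕ) : ℝ) * (-(2 / 3)) = -((4 : ℕ) : ℝ) := by norm_num
    rw [e1, Real.rpow_neg hv0.le, Real.rpow_natCast]
  obtain ⟨hS0, hs0, hsS, hs1, hs2, hS9⟩ := GSU_S N X u v hu0 hv0 hN' hu4.symm
  obtain ⟨S, hS⟩ : ∃ S : ℝ, S = SZ N X := ⟨_, rfl⟩
  obtain ⟨s, hs⟩ : ∃ s : ℝ, s = √(SZ N X) := ⟨_, rfl⟩
  rw [← hS] at hS0 hS9
  rw [← hs] at hs0 hs1 hs2
  rw [← hs, ← hS] at hsS
  obtain ⟨Q, hQ⟩ : ∃ Q : ℝ, Q = (⌊X ^ 2⌋₊ : ℝ) := ⟨_, rfl⟩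
  obtain ⟨-, hQa, hQb⟩ := GSU_floor (X ^ 2) hy1
  rw [← hQ, ← hu4] at hQa hQb
  have hQ1 : u ^ 4 / 4 ≤ Q := by
    have : 0 < u ^ 4 := by positivity
    linarith
  have hQ0 : 0 < Q := lt_of_lt_of_le (by positivity) hQ1
  have hyu : Y₀ ≤ u ^ 4 := by rw [hu4]; exact hy
  rw [hY₀] at hyu
  have hX0 := sq_nonneg X₀
  have hwρ : w ^ 4 ≤ ρ := by rw [hw4]; exact hlρ
  have hv4 : v ^ 4 ≤ ρ := by
    rw [← hv6]
    exact pow_le_pow_right₀ hv1 (by norm_num)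
  have hz : ∀ wb : ℝ, 0 < wb → wb ≤ w ^ 4 → 3 ≤ 7 * s / (100 * (E * wb)) := by
    intro wb h1 h2
    rw [le_div_iff₀ (by positivity)]
    have h3 : E * wb ≤ E * ρ := mul_le_mul_of_nonneg_left (h2.trans hwρ) hE0.le
    have h4 : u ^ 4 ≤ v ^ 2 * u ^ 4 := by
      have : 1 ≤ v ^ 2 := one_le_pow₀ hv1
      nlinarith [pow_pos hu0 4]
    nlinarith
  have hx : ∀ ω : ℝ, 1 ≤ ω → 1 ≤ ω ^ 4 * E * u ^ 12 / (2 * S) := by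
    intro ω h1
    rw [le_div_iff₀ (by positivity), one_mul]
    have h2 : 1 ≤ ω ^ 4 := one_le_pow₀ h1
    have h3 : u ^ 12 ≤ ω ^ 4 * E * u ^ 12 := by
      have h4 : 1 ≤ ω ^ 4 * E := one_le_mul_of_one_le_of_one_le h2 hE1
      nlinarith [pow_pos hu0 12]
    have h5 : v ^ 4 * u ^ 8 ≤ ρ * u ^ 8 := mul_le_mul_of_nonneg_right hv4 (by positivity)
    have h6 : 36 * ρ * u ^ 8 ≤ u ^ 4 * u ^ 8 := by
      apply mul_le_mul_of_nonneg_right _ (by positivity)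
      nlinarith
    have h7 : u ^ 4 * u ^ 8 = u ^ 12 := by ring
    have h8 : 0 ≤ ρ * u ^ 8 := by positivity
    linarith
  have hc10 : ((10 * P : ℕ) : ℝ) = 10 * P := by push_cast; ring
  have hErr : ∀ Cc : ℝ, Cc / ρ * (w * (1 + l * (v ^ 4)⁻¹)) * ((v ^ 4)⁻¹ * N) =
      Cc * (w * (1 + w ^ 4 / v ^ 4) * (v ^ 2 * u ^ 8)) := by
    intro Cc
    rw [← hv6, ← hw4, hN']
    field_simp
  have hMain : 1 / ((l : ℝ) ^ 2 * (P : ℝ) ^ 5) * ((v ^ 4)⁻¹ * N) = v ^ 8 * u ^ 8 / (w ^ 8 * (P : ℝ) ^ 5) := by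
    rw [← hw4, hN']
    field_simp
  rw [← hE, hρ23, hwl, hsl, ← hs, ← hS, ← hQ, hc10]
  simp only [hErr, hMain]
  have hw24 : w ^ 2 ≤ w ^ 4 := pow_le_pow_right₀ hw1 (by norm_num)
  refine ⟨?_, ?_, ?_⟩
  · obtain ⟨B, T, hB, hT, h3, h4, h5, h6⟩ := GSU_case P E u v w w (w ^ 2) f s S hP' hEP hu0 hv0 hw1 le_rfl le_rfl
      hf4 hf1 hs0 hsS hs1 hs2 (hz _ (by positivity) hw24) (hx w hw1) (2 * w ^ 2) (2 * w ^ 2) Q Q (by positivity)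
      (by positivity) (by ring_nf; rfl) (by ring_nf; rfl) hQ1 hQb hQ0.le (by
        rw [mul_div_assoc, div_self (by positivity), mul_one]
        exact hQb)
    refine ⟨B, T, _, hB, hT, GSU_c3 E (w ^ 2) s B hE0 (by positivity) h3, ?_, le_rfl, ?_, h6 _ rfl⟩
    · rw [← hw4, ← hu4]
      exact GSU_c4 E (w ^ 4) u S T (by positivity) hS0 h4
    · rw [← hu4]
      have h7 := GSU_c6 P E u v w w _ hP' hEP hu0 hv0 hw0 hw0 h5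
      have e1 : w ^ 4 * w ^ 4 = w ^ 8 := by ring
      rw [e1] at h7
      exact h7
  · obtain ⟨B, T, hB, hT, h3, h4, h5, h6⟩ := GSU_case P E u v w w (w ^ 4) f s S hP' hEP hu0 hv0 hw1 le_rfl hw24
      hf4 hf1 hs0 hsS hs1 hs2 (hz _ (by positivity) le_rfl) (hx w hw1) (w ^ 4) 1 Q Q (by positivity)
      (by positivity) (by nlinarith [pow_pos hw0 8, pow_pos hw0 4]) (by nlinarith [pow_pos hw0 4]) hQ1 hQb hQ0.le (by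
        rw [mul_div_assoc, div_self (by positivity), mul_one]
        exact hQb)
    rw [← hw4]
    refine ⟨B, T, E * T * w ^ 4 * B / Q ^ (3 / 2 : ℝ) + 1 * Q ^ (3 / 2 : ℝ) / B, hB, hT,
      GSU_c3 E (w ^ 4) s B hE0 (by positivity) h3, ?_, by rw [one_mul], ?_, h6 _ rfl⟩
    · rw [← hu4]
      exact GSU_c4 E (w ^ 4) u S T (by positivity) hS0 h4
    · rw [← hu4]
      have h7 := GSU_c6 P E u v w w _ hP' hEP hu0 hv0 hw0 hw0 h5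
      have e1 : w ^ 4 * w ^ 4 = w ^ 8 := by ring
      rw [e1] at h7
      exact h7
  · obtain ⟨B, T, hB, hT, h3, h4, h5, h6⟩ := GSU_case P E u v w 1 (w ^ 2) f s S hP' hEP hu0 hv0 le_rfl hw1 le_rfl
      hf4 hf1 hs0 hsS hs1 hs2 (hz _ (by positivity) hw24) (hx 1 le_rfl) (w ^ 4 * w ^ 2) (w ^ 2) Q (Q / w ^ 4)
      (by positivity) (by positivity) (by nlinarith [pow_pos hw0 6]) (by nlinarith [pow_pos hw0 4]) hQ1 hQb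
      (by positivity) (by
        rw [one_pow, mul_one]
        gcongr)
    obtain ⟨q1, q2, q3⟩ := GSU_q3 Q u hu0 hQ1 hQb
    have hq0 : 0 < Q ^ (3 / 2 : ℝ) := by positivity
    have hBp : (0 : ℝ) < B := by exact_mod_cast hB
    rw [← hw4]
    refine ⟨B, T, E * T * (w ^ 4 * w ^ 2) * B / Q ^ (3 / 2 : ℝ) + w ^ 2 * Q ^ (3 / 2 : ℝ) / B, hB, hT,
      GSU_c3 E (w ^ 2) s B hE0 (by positivity) h3, ?_, ?_, ?_, ?_⟩
    · rw [← hu4]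
      have h7 := GSU_c4 E 1 u S T one_pos hS0 (by rw [one_pow] at h4; exact h4)
      rw [mul_one] at h7
      exact h7
    · apply le_of_eq
      rw [← q3]
      field_simp
    · rw [← hu4]
      have h7 := GSU_c6 P E u v w 1 _ hP' hEP hu0 hv0 hw0 one_pos h5
      rw [one_pow, mul_one] at h7
      have h8 := div_le_div_of_nonneg_right h7 (show 0 ≤ w ^ 4 by positivity)
      have e1 : u ^ 4 / (10 * (P : ℝ)) ^ 2 * ((B : ℝ) ^ 2 / T) / w ^ 4 =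
          u ^ 4 / ((10 * (P : ℝ)) ^ 2 * w ^ 4) * ((B : ℝ) ^ 2 / T) := by
        field_simp
      have e2 : v ^ 8 * u ^ 8 / (w ^ 4 * (P : ℝ) ^ 5) / w ^ 4 = v ^ 8 * u ^ 8 / (w ^ 8 * (P : ℝ) ^ 5) := by
        field_simp
      rw [e1, e2] at h8
      exact h8
    · have h7 := h6 _ rfl
      have e1 : (T : ℝ) * Q / w ^ 4 = T * (Q / w ^ 4) := mul_div_assoc _ _ _
      have e2 : Q * (T : ℝ) ^ (1 / 4 : ℝ) / w ^ 4 = Q / w ^ 4 * (T : ℝ) ^ (1 / 4 : ℝ) := by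
        rw [div_mul_eq_mul_div]
      rw [e1, e2]
      exact h7

end Pool.Agent.RF
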