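import Pool.Agent.helper67.RG.Spec

namespace Pool.Agent.RG.KER

open Matrix Polynomial Pool.Agent.GO Pool.Agent.AR Pool.Agent.RG

variable {F Γ : Type*} [Field F] [Group Γ]

theorem ev_mul (A : Subalgebra F (Γ → F)) (D : Derivation F A A) (a b : A) (h : Γ) :
    (D (a * b)).1 h = a.1 h * (D b).1 h + b.1 h * (D a).1 h := by
  rw [Derivation.leibniz]
  rfl

theorem ev_sum (A : Subalgebra F (Γ → F)) {κ : Type*} (s : Finset κ) (f : κ → A) (h : Γ) :
    (∑ k ∈ s, f k : A).1 h = ∑ k ∈ s, (f k).1 h := by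
  classical
  induction s using Finset.induction_on with
  | empty => simp
  | insert a s ha ih =>
    rw [Finset.sum_insert ha, Finset.sum_insert ha, ← ih]
    rfl

theorem inv_rule {n : Type*} [Fintype n] [DecidableEq n] (A : Subalgebra F (Γ → F))
    (D : Derivation F A A) (U : Γ →* Matrix n n F) (a b : n → n → A)
    (ha : ∀ i j, (a i j).1 = fun g => U g i j) (hb : ∀ i j, (b i j).1 = fun g => U g⁻¹ i j)
    (Z : Matrix n n F) (hD : ∀ i j h, (D (a i j)).1 h = (U h * Z) i j) :
    ∀ i j h, (D (b i j)).1 h = -(Z * U h⁻¹) i j := by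
  intro i j h
  set B' : Matrix n n F := Matrix.of fun i j => (D (b i j)).1 h with hB'
  have hrel : ∀ i j, ∑ k, a i k * b k j = algebraMap F A ((1 : Matrix n n F) i j) := by
    intro i j
    apply Subtype.ext
    funext g
    rw [ev_sum]
    have h1 : U g * U g⁻¹ = 1 := by rw [← map_mul, mul_inv_cancel, map_one]
    have h2 := congrFun (congrFun h1 i) j
    rw [Matrix.mul_apply] at h2
    calc ∑ k, (a i k * b k j).1 g = ∑ k, U g i k * U g⁻¹ k j := by
          refine Finset.sum_congr rfl fun k _ => ?_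
          show (a i k).1 g * (b k j).1 g = _
          rw [ha, hb]
      _ = (1 : Matrix n n F) i j := h2
  have hmat : U h * B' + (U h * Z) * U h⁻¹ = 0 := by
    ext i j
    have h1 : D (∑ k, a i k * b k j) = 0 := by
      rw [hrel, Derivation.map_algebraMap]
    rw [map_sum] at h1
    have h2 : (∑ k, D (a i k * b k j) : A).1 h = 0 := by
      rw [h1]
      rfl
    rw [ev_sum] at h2
    rw [Matrix.add_apply, Matrix.mul_apply, Matrix.mul_apply (M := U h * Z), Matrix.zero_apply,
      ← h2, ← Finset.sum_add_distrib]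
    refine Finset.sum_congr rfl fun k _ => ?_
    rw [ev_mul, hD, ha, hb, hB', Matrix.of_apply]
    ring
  have hB : B' = -(Z * U h⁻¹) := by
    have h1 : U h⁻¹ * U h = 1 := by rw [← map_mul, inv_mul_cancel, map_one]
    calc B' = (U h⁻¹ * U h) * B' := by rw [h1, one_mul]
      _ = U h⁻¹ * (U h * B' + (U h * Z) * U h⁻¹) - (U h⁻¹ * U h) * (Z * U h⁻¹) := by
          rw [mul_add]
          simp only [mul_assoc]
          abel
      _ = -(Z * U h⁻¹) := by rw [hmat, h1, mul_zero, one_mul, zero_sub]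
  have h3 := congrFun (congrFun hB i) j
  rw [hB', Matrix.of_apply, Matrix.neg_apply] at h3
  exact h3

/-- the functions killed by `D` -/
def kerD (A : Subalgebra F (Γ → F)) (D : Derivation F A A) : Subalgebra F (Γ → F) where
  carrier := {f | ∃ hf : f ∈ A, D ⟨f, hf⟩ = 0}
  mul_mem' := by
    rintro f f' ⟨hf, h⟩ ⟨hf', h'⟩
    refine ⟨A.mul_mem hf hf', ?_⟩
    have h1 : (⟨f * f', A.mul_mem hf hf'⟩ : A) = ⟨f, hf⟩ * ⟨f', hf'⟩ := rfl
    rw [h1, Derivation.leibniz, h, h', smul_zero, smul_zero, add_zero]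
  add_mem' := by
    rintro f f' ⟨hf, h⟩ ⟨hf', h'⟩
    refine ⟨A.add_mem hf hf', ?_⟩
    have h1 : (⟨f + f', A.add_mem hf hf'⟩ : A) = ⟨f, hf⟩ + ⟨f', hf'⟩ := rfl
    rw [h1, map_add, h, h', add_zero]
  algebraMap_mem' := by
    intro c
    refine ⟨A.algebraMap_mem c, ?_⟩
    have h1 : (⟨algebraMap F (Γ → F) c, A.algebraMap_mem c⟩ : A) = algebraMap F A c := rfl
    rw [h1, Derivation.map_algebraMap]

theorem KER : KER_stmt := by
  intro F Γ m _ _ _ _ V ρ hcoef p hp hp0
  obtain ⟨D, hD1, hD2⟩ := hp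
  set Y := p.2 with hY
  -- the coefficients of `V` are killed
  have hV : alg V ≤ kerD (alg (ds V ρ)) D := by
    have e1 : ∀ i j h, (D (gen (ds V ρ) (Sum.inl i) (Sum.inl j))).1 h = (V h * (0 : Matrix m m F)) i j := by
      intro i j h
      rw [hD1, hp0]
    refine alg_le V (fun i j => ?_) (fun i j => ?_)
    · refine ⟨coef_mem (ds V ρ) (Sum.inl i) (Sum.inl j), ?_⟩
      apply Subtype.ext
      funext h
      have := e1 i j h
      rw [mul_zero] at this
      exact this
    · refine ⟨coefInv_mem (ds V ρ) (Sum.inl i) (Sum.inl j), ?_⟩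
      apply Subtype.ext
      funext h
      have := inv_rule (alg (ds V ρ)) D V (fun i j => gen (ds V ρ) (Sum.inl i) (Sum.inl j))
        (fun i j => genInv (ds V ρ) (Sum.inl i) (Sum.inl j)) (fun i j => rfl) (fun i j => rfl)
        (0 : Matrix m m F) e1 i j h
      rw [zero_mul, Matrix.zero_apply, neg_zero] at this
      exact this
  -- the derivation of `ρ⁻¹`
  have hinv := inv_rule (alg (ds V ρ)) D ρ (fun i j => gen (ds V ρ) (Sum.inr i) (Sum.inr j))
    (fun i j => genInv (ds V ρ) (Sum.inr i) (Sum.inr j)) (fun i j => rfl) (fun i j => rfl)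
    Y hD2
  -- commutation
  have hcomm : ∀ x : Fin 3 → F, Y * AR.em x = AR.em x * Y := by
    intro x
    have hvec : ∀ l, (fun g => (ad0 ρ g *ᵥ x) l) ∈ kerD (alg (ds V ρ)) D := by
      intro l
      have h1 : (fun g => (ad0 ρ g *ᵥ x) l) =
          ∑ k, x k • (fun g => ad0 ρ g l k) := by
        funext g
        rw [Finset.sum_apply]
        simp only [Matrix.mulVec, dotProduct, Pi.smul_apply, smul_eq_mul]
        exact Finset.sum_congr rfl fun k _ => mul_comm _ _
      rw [h1]
      exact Subalgebra.sum_mem _ fun k _ => Subalgebra.smul_mem _ (hV (hcoef l k)) _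
    have hem : ∀ i j, (fun g => (ρ g * AR.em x * ρ g⁻¹) i j) ∈ kerD (alg (ds V ρ)) D := by
      intro i j
      have h1 : (fun g => (ρ g * AR.em x * ρ g⁻¹) i j) = fun g => AR.em (ad0 ρ g *ᵥ x) i j := by
        funext g
        rw [AR.em_ad0]
      rw [h1]
      fin_cases i <;> fin_cases j
      · exact hvec 1
      · exact hvec 0
      · exact hvec 2
      · exact Subalgebra.neg_mem _ (hvec 1)
    ext i j
    obtain ⟨hf, h0⟩ := hem i j
    have h2 : (⟨fun g => (ρ g * AR.em x * ρ g⁻¹) i j, hf⟩ : alg (ds V ρ)) =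
        ∑ l, ∑ k, AR.em x k l • (gen (ds V ρ) (Sum.inr i) (Sum.inr k) *
          genInv (ds V ρ) (Sum.inr l) (Sum.inr j)) := by
      apply Subtype.ext
      funext g
      rw [ev_sum]
      show (ρ g * AR.em x * ρ g⁻¹) i j = _
      rw [Matrix.mul_apply]
      refine Finset.sum_congr rfl fun l _ => ?_
      rw [ev_sum, Matrix.mul_apply, Finset.sum_mul]
      refine Finset.sum_congr rfl fun k _ => ?_
      show _ = AR.em x k l * (ρ g i k * ρ g⁻¹ l j)
      ring
    rw [h2, map_sum] at h0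
    have h3 : (∑ l, D (∑ k, AR.em x k l • (gen (ds V ρ) (Sum.inr i) (Sum.inr k) *
          genInv (ds V ρ) (Sum.inr l) (Sum.inr j))) : alg (ds V ρ)).1 1 = 0 := by
      rw [h0]
      rfl
    rw [ev_sum] at h3
    have h4 : ∀ l, (D (∑ k, AR.em x k l • (gen (ds V ρ) (Sum.inr i) (Sum.inr k) *
          genInv (ds V ρ) (Sum.inr l) (Sum.inr j)))).1 1 =
        ∑ k, AR.em x k l * ((1 : Matrix (Fin 2) (Fin 2) F) i k * -(Y l j) +
          (1 : Matrix (Fin 2) (Fin 2) F) l j * Y i k) := by
      intro l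
      rw [map_sum, ev_sum]
      refine Finset.sum_congr rfl fun k _ => ?_
      rw [Derivation.map_smul]
      show AR.em x k l * (D (gen (ds V ρ) (Sum.inr i) (Sum.inr k) *
          genInv (ds V ρ) (Sum.inr l) (Sum.inr j))).1 1 = _
      rw [ev_mul, hinv, hD2]
      have k1 : (gen (ds V ρ) (Sum.inr i) (Sum.inr k)).1 1 = ρ 1 i k := rfl
      have k2 : (genInv (ds V ρ) (Sum.inr l) (Sum.inr j)).1 1 = ρ (1 : Γ)⁻¹ l j := rfl
      rw [k1, k2, inv_one, map_one, mul_one, one_mul]
    rw [Finset.sum_congr rfl fun l _ => h4 l] at h3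
    have h5 : ∑ l, ∑ k, AR.em x k l * ((1 : Matrix (Fin 2) (Fin 2) F) i k * -(Y l j) +
          (1 : Matrix (Fin 2) (Fin 2) F) l j * Y i k) =
        (Y * AR.em x) i j - (AR.em x * Y) i j := by
      rw [Matrix.mul_apply, Matrix.mul_apply]
      have q1 : ∀ l, ∑ k, AR.em x k l * ((1 : Matrix (Fin 2) (Fin 2) F) i k * -(Y l j) +
          (1 : Matrix (Fin 2) (Fin 2) F) l j * Y i k) =
          (1 : Matrix (Fin 2) (Fin 2) F) l j * (∑ k, Y i k * AR.em x k l) -
            AR.em x i l * Y l j := by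
        intro l
        have q2 : ∑ k, (1 : Matrix (Fin 2) (Fin 2) F) i k * (AR.em x k l * Y l j) =
            AR.em x i l * Y l j := by
          rw [Finset.sum_eq_single i]
          · rw [Matrix.one_apply_eq, one_mul]
          · intro b _ hb
            rw [Matrix.one_apply_ne (Ne.symm hb), zero_mul]
          · intro hh
            exact absurd (Finset.mem_univ i) hh
        rw [← q2, Finset.mul_sum, ← Finset.sum_sub_distrib]
        refine Finset.sum_congr rfl fun k _ => ?_
        ring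
      rw [Finset.sum_congr rfl fun l _ => q1 l, Finset.sum_sub_distrib]
      congr 1
      rw [Finset.sum_eq_single j]
      · rw [Matrix.one_apply_eq, one_mul]
      · intro b _ hb
        rw [Matrix.one_apply_ne hb, zero_mul]
      · intro hh
        exact absurd (Finset.mem_univ j) hh
    rw [h5] at h3
    exact sub_eq_zero.mp h3
  -- conclusion
  have c1 := hcomm ![1, 0, 0]
  have c2 := hcomm ![0, 0, 1]
  have a1 := congrFun (congrFun c1 0) 0
  have a2 := congrFun (congrFun c1 0) 1
  have a3 := congrFun (congrFun c2 0) 0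
  simp [AR.em, Matrix.mul_apply, Fin.sum_univ_two] at a1 a2 a3
  refine ⟨Y 0 0, ?_⟩
  ext i j
  fin_cases i <;> fin_cases j <;> simp
  · exact a3
  · exact a1.symm
  · exact a2.symm

end Pool.Agent.RG.KER
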