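import Pool.Agent.helper93.RG.SpecS

/-! # Project rg (MP_ea7dc1_al), row SPR: the prime -/

set_option autoImplicit false

namespace Pool.Agent.RG

open Finset

private theorem SPR_theta : ∃ X₀ : ℕ, ∀ n : ℕ, X₀ ≤ n →
    (n : ℝ) * (Real.log 2 / 2) ≤ Chebyshev.theta n := by
  obtain ⟨C, hC⟩ := Chebyshev.psi_sub_theta_le_mul_sqrt
  have hl2 : 0 < Real.log 2 / 2 := by
    have := Real.log_pos (by norm_num : (1 : ℝ) < 2)
    linarith
  obtain ⟨C', hC'⟩ : ∃ C' : ℝ, C' = max C 0 := ⟨_, rfl⟩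
  have hC0 : 0 ≤ C' := by rw [hC']; exact le_max_right _ _
  have hCC : C ≤ C' := by rw [hC']; exact le_max_left _ _
  obtain ⟨S, hS⟩ : ∃ S : ℝ, S = (4 + C') / (Real.log 2 / 2) + 1 := ⟨_, rfl⟩
  have hS1 : 1 ≤ S := by
    rw [hS]
    have : 0 ≤ (4 + C') / (Real.log 2 / 2) := div_nonneg (by linarith) hl2.le
    linarith
  have hS2 : 4 + C' ≤ S * (Real.log 2 / 2) := by
    rw [hS, add_mul, div_mul_cancel₀ _ hl2.ne']
    linarith
  refine ⟨⌈S ^ 2⌉₊, ?_⟩
  intro n hn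
  have hn1 : S ^ 2 ≤ (n : ℝ) := (Nat.le_ceil _).trans (by exact_mod_cast hn)
  have hsq : S ≤ Real.sqrt n := Real.le_sqrt_of_sq_le hn1
  have hn0 : (0 : ℝ) ≤ n := Nat.cast_nonneg n
  have hss : Real.sqrt n * Real.sqrt n = n := Real.mul_self_sqrt hn0
  have h1 := Chebyshev.psi_ge n
  have h2 := hC n
  have h3 : Real.sqrt ((n : ℝ) + 1) ≤ Real.sqrt n + 1 := by
    rw [Real.sqrt_le_iff]
    refine ⟨by positivity, ?_⟩
    nlinarith [Real.sqrt_nonneg (n : ℝ)]
  have h4 : Real.log ((n : ℝ) + 1) ≤ 2 * Real.sqrt ((n : ℝ) + 1) := by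
    have h5 : Real.log (Real.sqrt ((n : ℝ) + 1)) = Real.log ((n : ℝ) + 1) / 2 :=
      Real.log_sqrt (by linarith)
    have h6 : 0 < Real.sqrt ((n : ℝ) + 1) := Real.sqrt_pos.2 (by linarith)
    have h7 := Real.log_le_sub_one_of_pos h6
    rw [h5] at h7
    linarith
  have h8 : C * Real.sqrt n ≤ C' * Real.sqrt n := mul_le_mul_of_nonneg_right hCC (Real.sqrt_nonneg _)
  have h9 : (4 + C') * Real.sqrt n ≤ (n : ℝ) * (Real.log 2 / 2) := by
    have : (4 + C') * Real.sqrt n ≤ (Real.sqrt n * (Real.log 2 / 2)) * Real.sqrt n := by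
      refine mul_le_mul_of_nonneg_right ?_ (Real.sqrt_nonneg _)
      exact hS2.trans (mul_le_mul_of_nonneg_right hsq hl2.le)
    calc (4 + C') * Real.sqrt n ≤ (Real.sqrt n * (Real.log 2 / 2)) * Real.sqrt n := this
      _ = (Real.sqrt n * Real.sqrt n) * (Real.log 2 / 2) := by ring
      _ = (n : ℝ) * (Real.log 2 / 2) := by rw [hss]
  have h10 : 1 ≤ Real.sqrt n := hS1.trans hsq
  nlinarith

private theorem SPR_list (a : ℝ) (ha : 1 ≤ a) : ∀ M : List ℤ, (∀ m ∈ M, m ≠ 0) →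
    0 < (M.map Int.natAbs).prod ∧ Real.log (((M.map Int.natAbs).prod : ℕ) : ℝ) ≤
      (((M.map fun m => |m|).sum : ℤ) : ℝ) / a + M.length * Real.log a := by
  intro M
  induction M with
  | nil =>
    intro _
    simp
  | cons m M ih =>
    intro h
    have hm : m ≠ 0 := h m List.mem_cons_self
    obtain ⟨i1, i2⟩ := ih fun x hx => h x (List.mem_cons_of_mem m hx)
    have hm1 : 0 < m.natAbs := Int.natAbs_pos.2 hm
    have ha0 : 0 < a := by linarith
    refine ⟨?_, ?_⟩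
    · rw [List.map_cons, List.prod_cons]
      exact Nat.mul_pos hm1 i1
    · rw [List.map_cons, List.prod_cons, List.map_cons, List.sum_cons, List.length_cons]
      have e1 : ((m.natAbs : ℕ) : ℝ) = |(m : ℝ)| := by
        rw [← Int.cast_abs, Int.abs_eq_natAbs]
        simp
      have hmr : 0 < |(m : ℝ)| := abs_pos.2 (by exact_mod_cast hm)
      have hPr : (0 : ℝ) < (((M.map Int.natAbs).prod : ℕ) : ℝ) := by exact_mod_cast i1
      have e2 : Real.log |(m : ℝ)| ≤ |(m : ℝ)| / a + Real.log a := by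
        have h1 : 0 < |(m : ℝ)| / a := div_pos hmr ha0
        have h2 := Real.log_le_sub_one_of_pos h1
        rw [Real.log_div hmr.ne' ha0.ne'] at h2
        linarith
      rw [Nat.cast_mul, e1, Real.log_mul hmr.ne' hPr.ne', Int.cast_add, Int.cast_abs, Nat.cast_add, Nat.cast_one]
      have e3 : (|(m : ℝ)| + (((M.map fun m => |m|).sum : ℤ) : ℝ)) / a =
        |(m : ℝ)| / a + (((M.map fun m => |m|).sum : ℤ) : ℝ) / a := add_div _ _ _
      rw [e3]
      linarith

theorem SPR : SPR_stmt := by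
  intro r
  obtain ⟨X₀, hX₀⟩ := SPR_theta
  obtain ⟨K, hK⟩ : ∃ K : ℝ, K = 32 + 16 * (r : ℝ) + 2 * X₀ := ⟨_, rfl⟩
  have hr0 : (0 : ℝ) ≤ r := Nat.cast_nonneg r
  have hX0 : (0 : ℝ) ≤ X₀ := Nat.cast_nonneg X₀
  have hK0 : 32 ≤ K := by rw [hK]; linarith
  refine ⟨K + 2, by linarith, ?_⟩
  intro k n M hk hMk hM hMn
  obtain ⟨a, ha⟩ : ∃ a : ℝ, a = 2 + (n : ℝ) / k := ⟨_, rfl⟩
  obtain ⟨T, hT⟩ : ∃ T : ℝ, T = k * Real.log a := ⟨_, rfl⟩
  have hk1 : (1 : ℝ) ≤ k := by exact_mod_cast hk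
  have hk0 : (0 : ℝ) < k := by linarith
  have hn0 : (0 : ℝ) ≤ n := Nat.cast_nonneg n
  have hnk : 0 ≤ (n : ℝ) / k := div_nonneg hn0 hk0.le
  have ha2 : 2 ≤ a := by rw [ha]; linarith
  have hl2 : (1 / 2 : ℝ) < Real.log 2 := by
    have := Real.log_two_gt_d9
    linarith
  have hl2' : Real.log 2 < 1 := by
    have := Real.log_two_lt_d9
    linarith
  have hla : Real.log 2 ≤ Real.log a := Real.log_le_log (by norm_num) ha2
  have hTk : (k : ℝ) ≤ 2 * T := by
    rw [hT]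
    nlinarith
  have hT0 : (1 : ℝ) ≤ 2 * T := hk1.trans hTk
  obtain ⟨P, hP⟩ : ∃ P : ℕ, P = (M.map Int.natAbs).prod := ⟨_, rfl⟩
  obtain ⟨l1, l2⟩ := SPR_list a (by linarith) M hM
  rw [← hP] at l1 l2
  have hlogP : Real.log P ≤ 3 * T := by
    have s1 : (((M.map fun m => |m|).sum : ℤ) : ℝ) ≤ n := by exact_mod_cast hMn
    have s2 : (((M.map fun m => |m|).sum : ℤ) : ℝ) / a ≤ (n : ℝ) / a :=
      div_le_div_of_nonneg_right s1 (by linarith)
    have s3 : (n : ℝ) / a ≤ k := by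
      rw [div_le_iff₀ (by linarith), ha]
      have : (k : ℝ) * (2 + (n : ℝ) / k) = 2 * k + n := by
        field_simp
      rw [this]
      linarith
    have s4 : (M.length : ℝ) * Real.log a ≤ T := by
      rw [hT]
      refine mul_le_mul_of_nonneg_right (by exact_mod_cast hMk) ?_
      linarith
    linarith
  by_contra hcon
  push Not at hcon
  obtain ⟨X, hX⟩ : ∃ X : ℕ, X = ⌈K * T⌉₊ := ⟨_, rfl⟩
  obtain ⟨Y, hY⟩ : ∃ Y : ℕ, Y = max k r := ⟨_, rfl⟩
  have hKT : 0 ≤ K * T := mul_nonneg (by linarith) (by linarith)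
  have hXT : K * T ≤ X := by rw [hX]; exact Nat.le_ceil _
  have hXT' : (X : ℝ) ≤ (K + 2) * T := by
    have : (X : ℝ) < K * T + 1 := by rw [hX]; exact Nat.ceil_lt_add_one hKT
    nlinarith
  obtain ⟨S, hS⟩ : ∃ S : Finset ℕ, S = (Finset.Ioc Y X).filter Nat.Prime := ⟨_, rfl⟩
  have hSdvd : ∏ p ∈ S, p ∣ P := by
    refine Finset.prod_primes_dvd P ?_ ?_
    · intro p hp
      rw [hS, Finset.mem_filter] at hp
      exact hp.2.prime
    · intro p hp
      rw [hS, Finset.mem_filter, Finset.mem_Ioc] at hp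
      have hkp : k < p := lt_of_le_of_lt (by rw [hY]; exact le_max_left _ _) hp.1.1
      have hrp : r < p := lt_of_le_of_lt (by rw [hY]; exact le_max_right _ _) hp.1.1
      by_cases hdv : ∀ m ∈ M, ¬ (p : ℤ) ∣ m
      · have h1 := hcon p hp.2 hkp hrp hdv
        rw [← ha, ← hT] at h1
        have h2 : (p : ℝ) ≤ X := by exact_mod_cast hp.1.2
        linarith
      · push Not at hdv
        obtain ⟨m, hm, hpm⟩ := hdv
        have h1 : p ∣ m.natAbs := Int.natCast_dvd.1 hpm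
        refine h1.trans ?_
        rw [hP]
        exact List.dvd_prod (List.mem_map.2 ⟨m, hm, rfl⟩)
  have hSlog : ∑ p ∈ S, Real.log p ≤ Real.log P := by
    rw [← Real.log_prod (s := S) (f := fun p : ℕ => (p : ℝ))]
    · refine Real.log_le_log ?_ ?_
      · refine Finset.prod_pos ?_
        intro p hp
        rw [hS, Finset.mem_filter] at hp
        exact_mod_cast hp.2.pos
      · have h1 := Nat.le_of_dvd l1 hSdvd
        calc ∏ p ∈ S, ((p : ℕ) : ℝ) = ((∏ p ∈ S, p : ℕ) : ℝ) := (Nat.cast_prod _ _).symm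
          _ ≤ P := by exact_mod_cast h1
    · intro p hp
      rw [hS, Finset.mem_filter] at hp
      exact_mod_cast hp.2.ne_zero
  have hth : Chebyshev.theta X ≤ Chebyshev.theta Y + ∑ p ∈ S, Real.log p := by
    unfold Chebyshev.theta
    rw [Nat.floor_natCast, Nat.floor_natCast]
    rw [← Finset.sum_filter_add_sum_filter_not ((Finset.Ioc 0 X).filter Nat.Prime) (fun p => p ≤ Y)]
    refine add_le_add ?_ ?_
    · refine Finset.sum_le_sum_of_subset_of_nonneg ?_ ?_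
      · intro p hp
        rw [Finset.mem_filter, Finset.mem_filter, Finset.mem_Ioc] at hp
        rw [Finset.mem_filter, Finset.mem_Ioc]
        exact ⟨⟨hp.1.1.1, hp.2⟩, hp.1.2⟩
      · intro p hp _
        rw [Finset.mem_filter] at hp
        exact Real.log_nonneg (by exact_mod_cast hp.2.one_le)
    · refine Finset.sum_le_sum_of_subset_of_nonneg ?_ ?_
      · intro p hp
        rw [Finset.mem_filter, Finset.mem_filter, Finset.mem_Ioc] at hp
        rw [hS, Finset.mem_filter, Finset.mem_Ioc]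
        exact ⟨⟨not_le.1 hp.2, hp.1.1.2⟩, hp.1.2⟩
      · intro p hp _
        rw [hS, Finset.mem_filter] at hp
        exact Real.log_nonneg (by exact_mod_cast hp.2.one_le)
  have hX0X : X₀ ≤ X := by
    have : (X₀ : ℝ) ≤ X := by
      refine le_trans ?_ hXT
      rw [hK]
      nlinarith
    exact_mod_cast this
  have t1 := hX₀ X hX0X
  have t2 : Chebyshev.theta Y ≤ Real.log 4 * Y := Chebyshev.theta_le_log4_mul_x (Nat.cast_nonneg Y)
  have hl4 : Real.log 4 ≤ 2 := by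
    have : (4 : ℝ) = 2 ^ 2 := by norm_num
    rw [this, Real.log_pow]
    push_cast
    linarith
  have hYle : (Y : ℝ) ≤ k + r := by
    have : Y ≤ k + r := by
      rw [hY]
      exact max_le (Nat.le_add_right _ _) (Nat.le_add_left _ _)
    exact_mod_cast this
  have t3 : Real.log 4 * (Y : ℝ) ≤ 2 * (k + r) := by
    have hY0 : (0 : ℝ) ≤ Y := Nat.cast_nonneg Y
    nlinarith
  have t4 : K * T / 4 ≤ (X : ℝ) * (Real.log 2 / 2) := by
    have hXn : (0 : ℝ) ≤ X := Nat.cast_nonneg X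
    nlinarith
  have t5 : (8 + 4 * (r : ℝ)) * T ≤ K * T / 4 := by
    rw [hK]
    nlinarith
  nlinarith

end Pool.Agent.RG
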